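import Pool.Agent.N992.WP.Main

/-!
# MP_d037d4_ag: the `p`-adic weight-monodromy conjecture and the groups of Bloch and Kato

Let `K` be a finite extension of `ℚ_p` with residue field of `q = p ^ f` elements and `K_0 = W(k)[1/p]`.
Let `X` run through the smooth projective schemes over finite totally ramified extensions `L` of `K` with
semistable cohomology, and let `D^m(X)` be the Hyodo-Kato cohomology, a `(φ, N)`-module over `K_0`. Each
smooth projective scheme over `K` becomes of this kind over some `L`, and the conjecture does not change
under finite extensions. The following are equivalent.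

1. The `p`-adic weight-monodromy conjecture for `D^m(X)`, for all `X` and `m`.
2. For all `X` and all `m < 2 r` there is no `v ≠ 0` in `D^m(X)` with `φ v = p ^ r v` and `N v = 0`.
3. For all `X` and all `r > 0` there is no `v ≠ 0` in `D^(2 r - 1)(X)` with `φ v = p ^ r v`, `N v = 0`.

For `V = H^(2 r - 1)(X)(r)` the space in 3 is `D_cris(V)^(φ = 1)`. By Bloch and Kato its dimension over
`ℚ_p` is that of `H^1_f(L, V) / H^1_e(L, V)`, and that of `H^1_g(L, V') / H^1_f(L, V')` for
`V' = V^*(1) = H^(2 r' - 1)(X)(r')`, `r' = d + 1 - r`, `d = dim X`. So the conjecture is equivalent to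
`H^1_e = H^1_f = H^1_g` for all the representations `H^(2 r - 1)(X)(r)`, in whose `H^1` the `p`-adic
Abel-Jacobi maps take their values. That the conjecture implies these equalities is known (Nekovář). The
point is the converse.

The proof of 3 ⇒ 1 reduces a vector of weight `m + t + 1` in `D^m(X)` killed by `N ^ (t + 1)` to the case
`t = 0`, by the power `E ^ t` of a Tate curve, and then multiplies it by the dual eigenclass of an abelian
variety `Z` with good reduction, with the same Frobenius eigenvalue (`MP_cd312e_ag.NoInvariantsBelowTate`
has the `ℓ`-adic case). This gives a vector in the extension of scalars to `ℂ` with the right eigenvalue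
`q ^ r` of `φ ^ f`; flat base change and descent along the Frobenius of `K_0` (independence of
characters) give `v`.
-/

namespace Pool.Agent.Results.MP_d037d4_ag.BlochKatoGroups

open Pool.Agent.N992.WL Pool.Agent.N992.WP

theorem result (T : PadicTheory) (hT : IsPadicTheory T) :
    ((∀ X r, 0 < r → NoCrystalline T X (2 * r - 1) r) ↔
        ∀ X m, WeightMonodromy T.toLocal X m) ∧
      ((∀ X m r, m < 2 * r → NoCrystalline T X m r) ↔
        ∀ X m, WeightMonodromy T.toLocal X m) :=
  main hT

end Pool.Agent.Results.MP_d037d4_ag.BlochKatoGroups
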