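import Pool.Agent.N184.LF.PMain

/-!
# The p-adic weight-monodromy conjecture in families

For every smooth projective family over a base of finite type over `ℤ` the `p`-adic weight-monodromy
conjecture holds for all fibres over `p`-adic fields of large residue characteristic.
-/

set_option autoImplicit false

namespace Pool.Agent.Results.MP_d037d4_ag.LargeResidueChar

open Pool.Agent.N184.LF Pool.Agent.Y143 IsLocalRing AlgebraicGeometry

variable {Ω : ℕ → Type} [∀ p, Field (Ω p)] [∀ p, CharZero (Ω p)]

/-- There is a constant `C` such that the `p`-adic weight-monodromy conjecture holds in all degrees for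
the fibres over all points of `B` with values in `p`-adic fields with `p ≥ C`. -/
def PureInLargeCharacteristic {B : Scheme.{0}} (X : SmoothFamily B Ω) : Prop :=
  ∃ C : ℕ, ∀ (p : ℕ) (O : Type) [CommRing O] [IsDomain O] [IsDiscreteValuationRing O],
    p.Prime → C ≤ p → IsPadic p O → ∀ s : GenericPoint B O,
      IsPureInAllDegrees (Nat.card (ResidueField O)) (X.coh p O s)

/-- There is a constant `C` such that the `p`-adic weight-monodromy conjecture holds for the fibre over
a point `s` of `Spec A` with values in the `p`-adic ring `O` with `t_j ≠ 0` on `s` if `p ≥ C`, or if the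
`C`-th powers of the `t_j` divide `p` in `O`. Here `D` is (a direct summand of) the Hyodo-Kato
cohomology of the fibre in degree `k`, which is the log crystalline cohomology of the log fibre at the
closed point with the monodromy `∑ n_j N_j`, where `n_j` is the order of `t_j` in `O`. -/
def PureForMildDegenerations (F : PadicChart Ω) : Prop :=
  ∃ C : ℕ, ∀ (p : ℕ) (O : Type) [CommRing O] [IsDomain O] [IsDiscreteValuationRing O]
    (s : F.A →+* O) (n : F.J → ℕ), p.Prime → IsPadic p O → HasOrders F.t s n →
      (C ≤ p ∨ ∀ j, (p : O) ∈ Ideal.span {s (F.t j)} ^ C) →
        ∀ (k : ℕ) (D : FrobeniusModule (Ω p)) (pull : D.V →ₗ[Ω p] _) (push : _ →ₗ[Ω p] D.V),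
          D.IsTwistedBy (Nat.card (ResidueField O)) →
            IsFrobeniusSummand D (F.fibre p (Pool.Agent.N184.AF.closedPt s)) n k
              (Nat.card (ResidueField O)) pull push →
                IsMWPure (Nat.card (ResidueField O)) k D.Φ D.N

/-- (1) Let `B` be a noetherian scheme (of finite type over `ℤ`) and `X` the Hyodo-Kato cohomology of the
fibres of a smooth projective family over `B`. There is a constant `C` such that for every `p ≥ C`, every
`p`-adic field `K` and every point `s` in `B(K)`, the `p`-adic weight-monodromy conjecture holds in all
degrees for the fibre over `s`.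

(2) For every projective log smooth family over a noetherian ring with normal crossings `t_j` there is a
constant `C` such that the conjecture holds in all degrees for the fibre over every `O`-valued point `s` with
`s(t_j) ≠ 0` for which `p ≥ C`, or the `s(t_j) ^ C` divide `p`. -/
theorem result : (∀ (B : Scheme.{0}) [IsNoetherian B] (X : SmoothFamily B Ω),
    PureInLargeCharacteristic X) ∧ ∀ F : PadicChart Ω, PureForMildDegenerations F :=
  ⟨fun _ _ X => X.exists_bound, fun F => F.isMWPure⟩

end Pool.Agent.Results.MP_d037d4_ag.LargeResidueChar
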