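import Pool.Agent.N536.MW.Rate

/-!
# A zero–one law for the weight-monodromy conjecture

Let `K` be a finite extension of `ℚ_p` with residue field with `q` elements, and let `H^m(X)` be the
Hyodo-Kato cohomology groups of the smooth projective varieties `X` over `K` (with coefficients
extended to an algebraically closed field `Ω`), with the action `F` of the linear Frobenius `φ^f` and
with the monodromy operator `N`; or let `H^m(X)` be the `ℓ`-adic cohomology groups, with the action of a
geometric Frobenius element. Only the following properties are used (`IsLocalOn P T q`): `P` is a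
class of varieties such that `X × Y` is in `P` if and only if `X` and `Y` are (for example the projective
ones), and on `P` one has `N F = q F N`, integral weights, Poincaré duality together with hard
Lefschetz (`H^m` is self-dual up to a twist), and the Künneth formula.

For a variety `Y` let `b(Y)` be the dimension of the whole cohomology, and let `r(Y)` be the number of
the eigenvalues of `F` on the graded pieces `gr_s H^m(Y)` of the monodromy filtration which have the
right weight `m + s`. The weight-monodromy conjecture holds for `Y` if and only if
`r(Y) = b(Y)`.

Theorem. (1) If the conjecture holds for `X`, then `r(X^n) = b(X^n)` for all `n ≥ 1`. If it fails for `X`,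
then `r(X^n) / b(X^n) ≤ √(b(X) / (2 (n + 1)))` for all `n ≥ 1`.

(2) Consequently, the conjecture holds for all varieties in `P` as soon as
`r(Y) / b(Y) ≥ f(b(Y))` for all `Y` in `P` and a function `f` such that `f(y) √(log y)` tends to
infinity; for example, if for some `ε > 0` the share of the right eigenvalues is at least `ε` for all
`Y`.

Proof. The cohomology of `X` has a basis of strings of the operator `N`; let `δ` be the difference of the
true and the expected weight of an element of the basis (it is constant on the strings), so that `r(X^n)` is
the number of the `n`-tuples of basis vectors with `∑ δ = 0`. By duality the sum of `δ` over the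
basis is zero, and therefore `δ` is not constant if the conjecture fails. Choose `i` and `j` with
`δ(i) ≠ δ(j)`; an involution (exchange of `i` and `j` at a random set of places) and Sperner's bound show
that the number of tuples with `∑ δ = 0` is at most the sum of `binom(u, u/2) / 2^u ≤ 1 / √(u + 1)` over
all tuples, `u` being the number of the places with `i` or `j`, and the mean value of `1 / (u + 1)` is at
most `b(X) / (2 (n + 1))`.
-/

set_option autoImplicit false

open Module Filter

namespace Pool.Agent.Results.MP_d037d4_ag.ZeroOneLaw

universe u v w

open Pool.Agent.Y143 Pool.Agent.H914 Pool.Agent.Y163.MW Pool.Agent.N536.MW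

/-- **The zero–one law for the weight-monodromy conjecture.** -/
theorem result {K : Type u} [Field K] {Ω : Type w} [Field Ω] [CharZero Ω] [IsAlgClosed Ω]
    {P : SmVar.{u} K → Prop} {T : Theory.{u, v, w} K Ω} {q : ℕ} (hT : IsLocalOn P T q)
    (hq : 1 < q) :
    (∀ X, P X → ∃ M, IsMonodromyFiltrationOn ⊤ (T.H X).N M) ∧
    (∀ X, P X → ∀ (n : ℕ) (M : ℤ → Submodule Ω (T.H (pow X n)).V),
      IsMonodromyFiltrationOn ⊤ (T.H (pow X n)).N M →
      ((∀ m, (T.H X).MWPure q m) → (T.H (pow X n)).right q M = finrank Ω (T.H (pow X n)).V) ∧
      (¬ (∀ m, (T.H X).MWPure q m) → 2 * ((n : ℝ) + 2) * ((T.H (pow X n)).right q M : ℝ) ^ 2 ≤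
        finrank Ω (T.H X).V * (finrank Ω (T.H (pow X n)).V : ℝ) ^ 2)) ∧
    ∀ f : ℕ → ℝ, Tendsto (fun y : ℕ => f y * √(Real.log y)) atTop atTop →
      (∀ X, P X → ∀ M, IsMonodromyFiltrationOn ⊤ (T.H X).N M →
        f (finrank Ω (T.H X).V) * finrank Ω (T.H X).V ≤ (T.H X).right q M) →
      ∀ X, P X → ∀ m, (T.H X).MWPure q m :=
  zeroOne hT hq

end Pool.Agent.Results.MP_d037d4_ag.ZeroOneLaw
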